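import Pool.Agent.H447R2.CP.Final

/-!
# Unconditional space lower bound for SetDisjointness with `t` probes

In the cell-probe model, a structure for SetDisjointness reading at most `t` cells on disjoint
pairs has space `S ≥ N ^ (1 + 1 / t) / (log N) ^ c` for all `1 ≤ t ≤ (log N) / 2` and all
word lengths `w ≤ (log N) ^ a`.
-/

namespace Pool.Agent.Results.MP_90de28_lc.CellProbeBound

open H447CP

/-- A cell-probe data structure for families of `m` subsets of a universe of `u` elements:
the memory (`S` cells of `w` bits) may depend on the family in an arbitrary way, and the query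
`(i, j)` is answered by an adaptive decision tree reading cells; the answer `true` stands for
disjoint sets. -/
structure Oracle (m u w S : ℕ) where
  store : (Fin m → Finset (Fin u)) → Fin S → Fin (2 ^ w)
  query : Fin m → Fin m → PTree S (Fin (2 ^ w)) Bool

/-- The structure is correct on all families of nonempty sets of total size exactly `N`, and
reads at most `t` cells for every query with disjoint sets (no bound on the number of probes is
required for the other queries). -/
def Oracle.Solves {m u w S : ℕ} (D : Oracle m u w S) (N t : ℕ) : Prop :=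
  ∀ F : Fin m → Finset (Fin u), (∀ i, (F i).Nonempty) → ∑ i, (F i).card = N →
    ∀ i j : Fin m,
      ((D.query i j).run (D.store F) = true ↔ Disjoint (F i) (F j)) ∧
      (Disjoint (F i) (F j) → (D.query i j).cost (D.store F) ≤ t)

/-- **Main theorem.** -/
theorem result (a : ℕ) : ∃ c N₀ : ℕ, ∀ N t w : ℕ, N₀ ≤ N → 1 ≤ t →
    (t : ℝ) ≤ Real.log N / 2 → (w : ℝ) ≤ (Real.log N) ^ a →
    ∃ m ≤ N, ∀ (S : ℕ) (D : Oracle m N w S), D.Solves N t →
      (N : ℝ) ^ (1 + 1 / (t : ℝ)) / (Real.log N) ^ c ≤ S := by
  obtain ⟨c, N₀, h⟩ := disjointness_bound 2 a le_rfl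
  refine ⟨c, N₀, fun N t w hN ht htx hwx => ?_⟩
  obtain ⟨m, hm, hS⟩ := h N t w hN ht htx hwx
  refine ⟨m, hm, fun S D hD => ?_⟩
  have h2 := hS S D.store (fun v => D.query (v 0) (v 1)) ?_
  · have h3 : (((2 : ℕ) : ℝ) - 1) = 1 := by norm_num
    rw [h3] at h2
    exact h2
  · intro F hne hsum v
    have hiff : (∀ y, ∃ a, y ∉ F (v a)) ↔ Disjoint (F (v 0)) (F (v 1)) := by
      rw [Finset.disjoint_left]
      constructor
      · intro h y hy0 hy1
        obtain ⟨a, ha⟩ := h y
        rcases Fin.exists_fin_two.mp ⟨a, rfl⟩ with h0 | h1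
        · rw [h0] at ha; exact ha hy0
        · rw [h1] at ha; exact ha hy1
      · intro h y
        by_cases hy : y ∈ F (v 0)
        · exact ⟨1, h hy⟩
        · exact ⟨0, hy⟩
    obtain ⟨h4, h5⟩ := hD F hne hsum (v 0) (v 1)
    exact ⟨h4.trans hiff.symm, fun h => h5 (hiff.mp h)⟩

end Pool.Agent.Results.MP_90de28_lc.CellProbeBound
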