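import Pool.Agent.H525R4.Mono.HalfLower

/-!
# SetDisjointness: about `(N / t) ^ 2` space for monotone data structures, functions of one half free

A family of `2 h` subsets `F 0 i`, `F 1 i` (`i < h`) of a universe with `n` elements, `2 h n ≤ N` (so
of total size at most `N`), is preprocessed; the queries ask whether a set of the first half and a
set of the second half are disjoint.  A monotone data structure (`HalfDS`) has `s` cells; every cell
contains an arbitrary nondecreasing real function of the family (unlimited preprocessing, unlimited
word length).  In addition there are `2 r` free cells, which count as probes but not as space: they
contain arbitrary nondecreasing functions of one half of the family, for instance the sets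
themselves.  A query reads cells adaptively and decides by a condition which is nondecreasing in the
contents of the memory.  The data structure may be random: every answer is correct with probability
at least `1 / 2 + δ`, and if the two sets are disjoint then the expected number of places read is at
most `t`.

Then `s ≥ δ * (δ * N / (160 * t * log₂ ((N + r) / δ))) ^ 2`: in particular constant query time needs
space `Ω~(N ^ 2)` in addition to all that can be computed from one half alone, and for every `t`
(up to `N / log`) the known upper bound `O ((N / t) ^ 2)` is optimal up to logarithms in this model.

Proof.  The true inputs of a query and an element `e`: its two sets are `{e}`, all other sets are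
empty.  The false inputs are random: all other sets are the whole universe, every element is missing
from one (random) of the two sets.  If the answer is positive on the true input of `e` and negative
on the false input `y`, then one of the cells read on `y` is larger on the true input than on `y`; it
*serves* `e`.  Fix a cell, and let its owner be the query for which the `(2 L)`-th largest of the
values of the cell on the true inputs is the largest.  For any other query, each of the `2 L`
elements `e'` with the largest values for the owner is good with probability at least `1 / 2`: the
true input of the owner for `e'` lies below the false input; then the cell serves fewer than `2 L`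
elements.  A free cell has no need of an owner, since it has the same values on the true inputs of
another query.  So the `h ^ 2` queries must own at least `δ` cells on the average, and every cell has
only one owner.
-/

namespace Pool.Agent.Results.MP_90de28_lc.MonotoneHalves

open Pool.Agent.H525R4.Mono

/-- For all `N`, `r`, `0 < δ ≤ 1 / 2` and `t ≥ 1` with `160 t log₂ ((N + r) / δ) ≤ δ N` there are `h`
and `n` with `2 h n ≤ N` such that every randomised monotone data structure (with `s` cells, and
`2 r` free cells which are functions of one half of the family) which solves SetDisjointness between
the two halves of families of `2 h` subsets of a universe with `n` elements, with advantage `δ` and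
`t` probes, has at least `δ * (δ * N / (160 * t * log₂ ((N + r) / δ))) ^ 2` cells. -/
theorem result (N r : ℕ) (δ t : ℝ) (hδ : 0 < δ) (hδ2 : δ ≤ 1 / 2) (ht : 1 ≤ t)
    (hnt : 160 * t * Real.logb 2 ((N + r) / δ) ≤ δ * N) :
    ∃ h n : ℕ, 2 * h * n ≤ N ∧ ∀ (s : ℕ) (Ω : Type) [Fintype Ω] (p : Ω → ℝ)
      (D : Ω → HalfDS h n s r), HalfSolves p D δ t →
        δ * (δ * N / (160 * t * Real.logb 2 ((N + r) / δ))) ^ 2 ≤ s :=
  half_lower hδ hδ2 ht hnt

end Pool.Agent.Results.MP_90de28_lc.MonotoneHalves
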